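import Pool.Agent.H24.BZ.Targets
import Pool.Agent.H80.AG.Targets9
import Pool.Agent.H59.MR.Dens

/-!
Project BZ, row VAR: the families which come from a failure of the local statement
-/

set_option autoImplicit false

open Filter Finset
open scoped Nat

namespace Pool.Agent.H21.BZ

open Pool.Agent.H24.MR (lam dens FinAddInv)
open Pool.Agent.H24.T2 (Pset rel)
open Pool.Agent.H80.AG (Fam)
open Pool.Agent.H24.BZ
open Pool.Agent.H59.MR (finAddInv_dens fai_mono fai_union_le fai_empty)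

/-- a member of a finite set with a small weighted value -/
lemma exists_le_avg {M : Finset ℕ} {wt S : ℕ → ℝ} {x : ℝ} (h0 : ∀ m ∈ M, 0 ≤ wt m)
    (h1 : ∑ m ∈ M, wt m = 1) (h2 : ∑ m ∈ M, wt m * S m ≤ x) : ∃ m ∈ M, S m ≤ x := by
  have hne : M.Nonempty := by
    rw [Finset.nonempty_iff_ne_empty]
    rintro rfl
    simp at h1
  obtain ⟨m, hm, hmin⟩ := Finset.exists_min_image M S hne
  refine ⟨m, hm, le_trans ?_ h2⟩
  calc S m = ∑ m' ∈ M, wt m' * S m := by rw [← Finset.sum_mul, h1, one_mul]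
    _ ≤ ∑ m' ∈ M, wt m' * S m' :=
        Finset.sum_le_sum fun m' hm' => mul_le_mul_of_nonneg_left (hmin m' hm') (h0 m' hm')

theorem Pset_sub {Q D m p : ℕ} (hp : p ∈ Pset (Q * D) m) : p ∈ Pset Q m := by
  unfold Pset at hp ⊢
  rw [mem_filter] at hp ⊢
  exact ⟨hp.1, hp.2.1, hp.2.2.of_mul_right D⟩

/-- **Row VAR.** -/
theorem pf_VAR (hv : T_VNC) (hm : Pool.Agent.H80.AG.T_MMX) : T_VAR := by
  classical
  intro k δ η hδ hδ1 hη hnot
  unfold LocW at hnot
  push Not at hnot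
  obtain ⟨Q, c, β, hQ, hQe, hβ, ρ, hρ, hL⟩ := hnot
  have hρ8 : 0 < δ * ρ / 8 := by positivity
  choose Mf wt h1 h2 h3 using fun w i => hv k Q c β (δ * ρ / 8) w i hQ hρ8
  refine ⟨Q, c, β, ρ, Mf, hQ, hQe, hβ, hρ, fun w i m hm => ⟨(h1 w i m hm).1, (h1 w i m hm).2.1⟩,
    fun J => ?_⟩
  -- the scales
  set MJ : Finset ℕ := (range (J + 1) ×ˢ range (J + 1)).biUnion fun x => Mf x.1 x.2 with hMJ
  have hsub : ∀ w ≤ J, ∀ i ≤ J, Mf w i ⊆ MJ := by
    intro w hw i hi m hm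
    rw [hMJ, mem_biUnion]
    exact ⟨(w, i), mem_product.2 ⟨mem_range.2 (by omega), mem_range.2 (by omega)⟩, hm⟩
  have hne : ∀ w i, (Mf w i).Nonempty := by
    intro w i
    rw [Finset.nonempty_iff_ne_empty]
    intro h
    have h4 := h2 w i
    rw [h] at h4
    simp at h4
  have hMJne : MJ.Nonempty := (hne 0 0).mono (hsub 0 (Nat.zero_le _) 0 (Nat.zero_le _))
  set VJ : Finset (Finset ℕ) := MJ.powerset.filter fun B => ∃ (U : Ultrafilter ℕ) (N : ℕ → ℕ)
    (σ : ℕ → ℕ → ℤ), WH k δ η Q c β B U N σ with hVJ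
  obtain ⟨u, hu0, hu1, hu⟩ := hm MJ VJ ρ hMJne
    (fun B hB => Finset.mem_powerset.1 (mem_filter.1 hB).1) hρ (fun v hv hv1 => by
      obtain ⟨U, N, σ, B, hB, hB1, hB2⟩ := hL MJ v hv hv1
      exact ⟨B, mem_filter.2 ⟨Finset.mem_powerset.2 hB, U, N, σ, hB1⟩, hB2⟩)
  have hch : ∀ B : Finset ℕ, ∃ x : Ultrafilter ℕ × (ℕ → ℕ) × (ℕ → ℕ → ℤ), B ∈ VJ →
      WH k δ η Q c β B x.1 x.2.1 x.2.2 := by
    intro B
    by_cases hB : B ∈ VJ
    · obtain ⟨-, U, N, σ, h⟩ := mem_filter.1 hB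
      exact ⟨(U, N, σ), fun _ => h⟩
    · exact ⟨(hyperfilter ℕ, id, fun _ _ => 0), fun h => absurd h hB⟩
  choose X hX using hch
  have hfai : ∀ B ∈ VJ, FinAddInv (dens (X B).1 (X B).2.1) := fun B hB =>
    finAddInv_dens (hX B hB).hN
  -- the flags
  have hfl : ∀ (B : Finset ℕ) (w i : ℕ), ∃ fl : ℕ → ℕ → Bool, B ∈ VJ →
      (∀ m ∈ Mf w i, dens (X B).1 (X B).2.1 {y | fl m y ≠ fl m (y + 1)} = 0) ∧
        ∑ m ∈ Mf w i, wt w i m * dens (X B).1 (X B).2.1 {y | fl m y = false} ≤ δ * ρ / 8 ∧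
        ∀ m ∈ Mf w i, ∑ p ∈ Pset (Q * w !) m,
          dens (X B).1 (X B).2.1 {y | fl m y = true ∧ (X B).2.2 p y ≠ 0 ∧ y ≡ c [MOD Q] ∧
            rel β lam p y ≠ ((X B).2.2 p y : ℝ)} ≤
          10 * ∑ p ∈ Pset (Q * w !) m,
            p * dens (X B).1 (X B).2.1 {y | y ≡ c [MOD Q] ∧ p ∣ y ∧ (X B).2.2 p y ≠ 0 ∧
              rel β lam p y ≠ ((X B).2.2 p y : ℝ)} +
          2 / (((i : ℝ) + 1) * Q) * (Pset (Q * w !) m).card := by
    intro B w i
    by_cases hB : B ∈ VJ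
    · obtain ⟨fl, h⟩ := h3 w i (dens (X B).1 (X B).2.1) (X B).2.2 (hfai B hB) (hX B hB).val
        (hX B hB).cst
      exact ⟨fl, fun _ => h⟩
    · exact ⟨fun _ _ => false, fun h => absurd h hB⟩
  choose fl hfl using hfl
  -- the atoms
  have hm : ∀ w i : ℕ, ∃ m, w ≤ J → i ≤ J → m ∈ Mf w i ∧
      ∑ B ∈ VJ, u B * dens (X B).1 (X B).2.1 {y | fl B w i m y = false} ≤ δ * ρ / 8 := by
    intro w i
    have h4 := exists_le_avg (M := Mf w i) (wt := wt w i)
      (S := fun m => ∑ B ∈ VJ, u B * dens (X B).1 (X B).2.1 {y | fl B w i m y = false})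
      (x := δ * ρ / 8) (fun m hm => (h1 w i m hm).2.2) (h2 w i) ?_
    · obtain ⟨m, hm, hm'⟩ := h4
      exact ⟨m, fun _ _ => ⟨hm, hm'⟩⟩
    have h7 : ∑ m ∈ Mf w i, wt w i m *
        (∑ B ∈ VJ, u B * dens (X B).1 (X B).2.1 {y | fl B w i m y = false}) =
        ∑ B ∈ VJ, u B * ∑ m ∈ Mf w i, wt w i m *
          dens (X B).1 (X B).2.1 {y | fl B w i m y = false} := by
      simp only [Finset.mul_sum]
      rw [Finset.sum_comm]
      refine Finset.sum_congr rfl fun B _ => Finset.sum_congr rfl fun m _ => ?_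
      ring
    rw [h7]
    calc ∑ B ∈ VJ, u B * ∑ m ∈ Mf w i, wt w i m *
          dens (X B).1 (X B).2.1 {y | fl B w i m y = false}
        ≤ ∑ B ∈ VJ, u B * (δ * ρ / 8) :=
          Finset.sum_le_sum fun B hB => mul_le_mul_of_nonneg_left (hfl B w i hB).2.1 (hu0 B hB)
      _ = δ * ρ / 8 := by rw [← Finset.sum_mul, hu1, one_mul]
  choose m hm using hm
  -- the family
  let e : Fin VJ.card ≃ VJ := VJ.equivFin.symm
  have hsum : ∀ f : Finset ℕ → ℝ, ∑ a, f (e a) = ∑ B ∈ VJ, f B := by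
    intro f
    rw [← Finset.sum_coe_sort VJ f]
    exact Equiv.sum_comp e fun B : VJ => f B
  let F : Fam :=
    { n := VJ.card
      u := fun a => u (e a)
      u0 := fun a => hu0 _ (e a).2
      u1 := by rw [hsum u, hu1]
      U := fun a => (X (e a)).1
      N := fun a => (X (e a)).2.1
      hN := fun a => (hX _ (e a).2).hN }
  let flB : Finset ℕ → ℕ → ℕ → ℕ → Bool := fun B w i y =>
    if w ≤ J ∧ i ≤ J ∧ m w i ∈ B then fl B w i (m w i) y else false
  have hflB1 : ∀ B w i, (w ≤ J ∧ i ≤ J ∧ m w i ∈ B) → ∀ y, flB B w i y = fl B w i (m w i) y :=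
    fun B w i h y => if_pos h
  have hflB0 : ∀ B w i, ¬ (w ≤ J ∧ i ≤ J ∧ m w i ∈ B) → ∀ y, flB B w i y = false :=
    fun B w i h y => if_neg h
  have hd : ∀ A : Finset ℕ → Set ℕ, F.d (fun a => A (e a)) =
      ∑ B ∈ VJ, u B * dens (X B).1 (X B).2.1 (A B) := fun A =>
    hsum fun B => u B * dens (X B).1 (X B).2.1 (A B)
  have hle1 : ∀ B ∈ VJ, ∀ A : Set ℕ, dens (X B).1 (X B).2.1 A ≤ 1 := by
    intro B hB A
    rw [← (hfai B hB).univ]
    exact fai_mono (hfai B hB) (Set.subset_univ _)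
  have haf : ∀ w i, w ≤ J → i ≤ J → ρ ≤ ∑ B ∈ VJ, if m w i ∈ B then u B else 0 :=
    fun w i hw hi => hu _ (hsub w hw i hi (hm w i hw hi).1)
  -- the densities of the supports
  have key : ∀ w ≤ J, ∀ i ≤ J, ∀ p ∈ Pset (Q * w !) (m w i),
      δ * (∑ B ∈ VJ, if m w i ∈ B then u B else 0) ≤
        ∑ B ∈ VJ, (if m w i ∈ B then u B else 0) * dens (X B).1 (X B).2.1
          {y | (X B).2.2 p y ≠ 0} ∧
      7 / 8 * (∑ B ∈ VJ, (if m w i ∈ B then u B else 0) * dens (X B).1 (X B).2.1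
          {y | (X B).2.2 p y ≠ 0}) ≤
        ∑ B ∈ VJ, u B * dens (X B).1 (X B).2.1 {y | flB B w i y = true ∧ (X B).2.2 p y ≠ 0} := by
    intro w hw i hi p hp
    have hpQ := Pset_sub hp
    have h5 := haf w i hw hi
    have h6 := (hm w i hw hi).2
    have h7 : δ * (∑ B ∈ VJ, if m w i ∈ B then u B else 0) ≤
        ∑ B ∈ VJ, (if m w i ∈ B then u B else 0) * dens (X B).1 (X B).2.1
          {y | (X B).2.2 p y ≠ 0} := by
      rw [Finset.mul_sum]
      refine Finset.sum_le_sum fun B hB => ?_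
      by_cases h : m w i ∈ B
      · rw [if_pos h, mul_comm]
        exact mul_le_mul_of_nonneg_left ((hX B hB).dns _ h p hpQ) (hu0 B hB)
      · rw [if_neg h, mul_zero, zero_mul]
    refine ⟨h7, ?_⟩
    have h8 : ∀ B ∈ VJ, (if m w i ∈ B then u B else 0) * dens (X B).1 (X B).2.1
          {y | (X B).2.2 p y ≠ 0} -
        u B * dens (X B).1 (X B).2.1 {y | fl B w i (m w i) y = false} ≤
        u B * dens (X B).1 (X B).2.1 {y | flB B w i y = true ∧ (X B).2.2 p y ≠ 0} := by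
      intro B hB
      by_cases h : m w i ∈ B
      · rw [if_pos h]
        simp only [hflB1 B w i ⟨hw, hi, h⟩]
        have h10 : dens (X B).1 (X B).2.1 {y | (X B).2.2 p y ≠ 0} ≤
            dens (X B).1 (X B).2.1 {y | fl B w i (m w i) y = true ∧ (X B).2.2 p y ≠ 0} +
            dens (X B).1 (X B).2.1 {y | fl B w i (m w i) y = false} := by
          refine (fai_mono (hfai B hB) ?_).trans (fai_union_le (hfai B hB) _ _)
          intro y hy
          by_cases hf : fl B w i (m w i) y = true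
          · exact Or.inl ⟨hf, hy⟩
          · exact Or.inr (by simpa using hf)
        have h11 := mul_le_mul_of_nonneg_left h10 (hu0 B hB)
        linarith
      · rw [if_neg h, zero_mul]
        have h9 := mul_nonneg (hu0 B hB) ((hfai B hB).nonneg {y | fl B w i (m w i) y = false})
        have h10 := mul_nonneg (hu0 B hB)
          ((hfai B hB).nonneg {y | flB B w i y = true ∧ (X B).2.2 p y ≠ 0})
        linarith
    have h9 := Finset.sum_le_sum h8
    rw [Finset.sum_sub_distrib] at h9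
    have h12 : δ * ρ ≤ δ * ∑ B ∈ VJ, (if m w i ∈ B then u B else 0) :=
      mul_le_mul_of_nonneg_left h5 hδ.le
    linarith
  refine ⟨F, m, fun a => (X (e a)).2.2, fun a => flB (e a),
    fun w i => ∑ B ∈ VJ, if m w i ∈ B then u B else 0, ?_⟩
  constructor
  · intro a
    exact (hX _ (e a).2).val
  · intro a
    exact (hX _ (e a).2).cst
  · intro a w i
    change dens (X (e a)).1 (X (e a)).2.1 {y | flB (e a) w i y ≠ flB (e a) w i (y + 1)} = 0
    by_cases h : w ≤ J ∧ i ≤ J ∧ m w i ∈ (e a : Finset ℕ)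
    · simp only [hflB1 _ w i h]
      exact (hfl _ w i (e a).2).1 _ (hm w i h.1 h.2.1).1
    · simp only [hflB0 _ w i h, ne_eq, not_true_eq_false, Set.ofPred_false]
      exact fai_empty (hfai _ (e a).2)
  · intro w hw i hi
    exact (hm w i hw hi).1
  · intro w hw i hi
    refine ⟨haf w i hw hi, ?_⟩
    rw [← hu1]
    refine Finset.sum_le_sum fun B hB => ?_
    split_ifs
    · exact le_rfl
    · exact hu0 B hB
  · intro w hw i hi
    rw [hd fun B => {y | flB B w i y = true}]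
    refine Finset.sum_le_sum fun B hB => ?_
    by_cases h : m w i ∈ B
    · rw [if_pos h]
      exact mul_le_of_le_one_right (hu0 B hB) (hle1 B hB _)
    · rw [if_neg h]
      have h5 : ¬ (w ≤ J ∧ i ≤ J ∧ m w i ∈ B) := fun h' => h h'.2.2
      simp only [hflB0 _ w i h5, Bool.false_eq_true, Set.ofPred_false]
      rw [fai_empty (hfai _ hB), mul_zero]
  · intro w hw i hi p hp
    rw [hd fun B => {y | flB B w i y = true ∧ (X B).2.2 p y ≠ 0}]
    obtain ⟨k1, k2⟩ := key w hw i hi p hp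
    have h5 := haf w i hw hi
    have h13 : 0 < δ * ∑ B ∈ VJ, (if m w i ∈ B then u B else 0) :=
      mul_pos hδ (by linarith)
    linarith
  · intro w hw i hi
    have h4 : ∀ p, F.d (fun a => {y | flB (e a) w i y = true ∧ (X (e a)).2.2 p y ≠ 0 ∧
        y ≡ c [MOD Q] ∧ rel β lam p y ≠ (((X (e a)).2.2 p y : ℤ) : ℝ)}) =
        ∑ B ∈ VJ, u B * dens (X B).1 (X B).2.1 {y | flB B w i y = true ∧ (X B).2.2 p y ≠ 0 ∧
        y ≡ c [MOD Q] ∧ rel β lam p y ≠ (((X B).2.2 p y : ℤ) : ℝ)} := fun p =>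
      hd fun B => {y | flB B w i y = true ∧ (X B).2.2 p y ≠ 0 ∧
        y ≡ c [MOD Q] ∧ rel β lam p y ≠ (((X B).2.2 p y : ℤ) : ℝ)}
    have h4' : ∀ p, F.d (fun a => {y | flB (e a) w i y = true ∧ (X (e a)).2.2 p y ≠ 0}) =
        ∑ B ∈ VJ, u B * dens (X B).1 (X B).2.1 {y | flB B w i y = true ∧
          (X B).2.2 p y ≠ 0} := fun p =>
      hd fun B => {y | flB B w i y = true ∧ (X B).2.2 p y ≠ 0}
    simp only [h4, h4']
    have hQ0 : (0 : ℝ) < Q := by exact_mod_cast hQ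
    have hi0 : (0 : ℝ) < (i : ℝ) + 1 := by positivity
    have h5 : ∑ p ∈ Pset (Q * w !) (m w i), ∑ B ∈ VJ, u B * dens (X B).1 (X B).2.1
        {y | flB B w i y = true ∧ (X B).2.2 p y ≠ 0 ∧
        y ≡ c [MOD Q] ∧ rel β lam p y ≠ (((X B).2.2 p y : ℤ) : ℝ)} ≤
        ∑ B ∈ VJ, (if m w i ∈ B then u B else 0) *
          (10 * η / Q * ∑ p ∈ Pset (Q * w !) (m w i), dens (X B).1 (X B).2.1
            {y | (X B).2.2 p y ≠ 0} +
          2 / (((i : ℝ) + 1) * Q) * (Pset (Q * w !) (m w i)).card) := by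
      rw [Finset.sum_comm]
      refine Finset.sum_le_sum fun B hB => ?_
      rw [← Finset.mul_sum]
      by_cases h : m w i ∈ B
      · rw [if_pos h]
        refine mul_le_mul_of_nonneg_left ?_ (hu0 B hB)
        simp only [hflB1 B w i ⟨hw, hi, h⟩]
        refine ((hfl B w i hB).2.2 _ (hm w i hw hi).1).trans ?_
        have h5 : ∑ p ∈ Pset (Q * w !) (m w i),
              (p : ℝ) * dens (X B).1 (X B).2.1 {y | y ≡ c [MOD Q] ∧ p ∣ y ∧ (X B).2.2 p y ≠ 0 ∧
                rel β lam p y ≠ ((X B).2.2 p y : ℝ)} ≤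
            ∑ p ∈ Pset (Q * w !) (m w i), η / Q * dens (X B).1 (X B).2.1
              {y | (X B).2.2 p y ≠ 0} := by
          refine Finset.sum_le_sum fun p hp => ?_
          have h6 := (hX B hB).rln _ h p (Pset_sub hp)
          have hp0 : (0 : ℝ) < p := by
            unfold Pset at hp
            rw [mem_filter] at hp
            exact_mod_cast hp.2.1.pos
          calc (p : ℝ) * dens (X B).1 (X B).2.1 {y | y ≡ c [MOD Q] ∧ p ∣ y ∧ (X B).2.2 p y ≠ 0 ∧
                rel β lam p y ≠ ((X B).2.2 p y : ℝ)} ≤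
                p * (η / (p * Q) * dens (X B).1 (X B).2.1 {y | (X B).2.2 p y ≠ 0}) :=
              mul_le_mul_of_nonneg_left h6 hp0.le
            _ = η / Q * dens (X B).1 (X B).2.1 {y | (X B).2.2 p y ≠ 0} := by
              field_simp
        rw [← Finset.mul_sum] at h5
        have e1 : 10 * (η / Q * ∑ p ∈ Pset (Q * w !) (m w i), dens (X B).1 (X B).2.1
            {y | (X B).2.2 p y ≠ 0}) = 10 * η / Q * ∑ p ∈ Pset (Q * w !) (m w i),
              dens (X B).1 (X B).2.1 {y | (X B).2.2 p y ≠ 0} := by ring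
        linarith
      · rw [if_neg h, zero_mul]
        have h5 : ¬ (w ≤ J ∧ i ≤ J ∧ m w i ∈ B) := fun h' => h h'.2.2
        simp only [hflB0 _ w i h5, Bool.false_eq_true, false_and, Set.ofPred_false]
        rw [fai_empty (hfai _ hB), Finset.sum_const_zero, mul_zero]
    have h6 : ∑ p ∈ Pset (Q * w !) (m w i), 7 / 8 * (∑ B ∈ VJ, (if m w i ∈ B then u B else 0) *
          dens (X B).1 (X B).2.1 {y | (X B).2.2 p y ≠ 0}) ≤
        ∑ p ∈ Pset (Q * w !) (m w i), ∑ B ∈ VJ, u B * dens (X B).1 (X B).2.1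
          {y | flB B w i y = true ∧ (X B).2.2 p y ≠ 0} :=
      Finset.sum_le_sum fun p hp => (key w hw i hi p hp).2
    rw [← Finset.mul_sum] at h6
    have h7 : ∑ B ∈ VJ, (if m w i ∈ B then u B else 0) *
          (10 * η / Q * ∑ p ∈ Pset (Q * w !) (m w i), dens (X B).1 (X B).2.1
            {y | (X B).2.2 p y ≠ 0} +
          2 / (((i : ℝ) + 1) * Q) * (Pset (Q * w !) (m w i)).card) =
        10 * η / Q * (∑ p ∈ Pset (Q * w !) (m w i), ∑ B ∈ VJ, (if m w i ∈ B then u B else 0) *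
          dens (X B).1 (X B).2.1 {y | (X B).2.2 p y ≠ 0}) +
        2 / (((i : ℝ) + 1) * Q) * (Pset (Q * w !) (m w i)).card *
          ∑ B ∈ VJ, (if m w i ∈ B then u B else 0) := by
      rw [Finset.sum_comm, Finset.mul_sum, Finset.mul_sum, ← Finset.sum_add_distrib]
      refine Finset.sum_congr rfl fun B _ => ?_
      rw [← Finset.mul_sum]
      ring
    rw [h7] at h5
    refine h5.trans ?_
    have h8 : 0 ≤ ∑ p ∈ Pset (Q * w !) (m w i), ∑ B ∈ VJ, u B * dens (X B).1 (X B).2.1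
          {y | flB B w i y = true ∧ (X B).2.2 p y ≠ 0} :=
      Finset.sum_nonneg fun p _ => Finset.sum_nonneg fun B hB =>
        mul_nonneg (hu0 B hB) ((hfai B hB).nonneg _)
    have h9 : 10 * η / Q * (∑ p ∈ Pset (Q * w !) (m w i), ∑ B ∈ VJ,
          (if m w i ∈ B then u B else 0) *
          dens (X B).1 (X B).2.1 {y | (X B).2.2 p y ≠ 0}) ≤
        12 * η / Q * ∑ p ∈ Pset (Q * w !) (m w i), ∑ B ∈ VJ, u B * dens (X B).1 (X B).2.1
          {y | flB B w i y = true ∧ (X B).2.2 p y ≠ 0} := by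
      have e1 : 10 * η / Q = η / Q * 10 := by ring
      have e2 : 12 * η / Q = η / Q * 12 := by ring
      rw [e1, e2, mul_assoc, mul_assoc]
      refine mul_le_mul_of_nonneg_left ?_ (by positivity)
      linarith
    linarith

end Pool.Agent.H21.BZ
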